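import Mathlib

/-!
One-dimensional core: for a solution `w` of `w_t = √(1+w_x²) (w_x / √(1+w_x²))_x` the integral over
`[a,b]` grows at most by `π t`.
-/

set_option autoImplicit false

namespace Pool.Agent.W551.Grim

open Set Filter Topology MeasureTheory
open scoped ContDiff

/-- the open interval -/
def II : Set ℝ := Ioo (-(Real.pi / 2)) (Real.pi / 2)

theorem isOpen_II : IsOpen II := isOpen_Ioo

structure Sol (w : ℝ → ℝ → ℝ) : Prop where
  smooth : ContDiffOn ℝ ∞ (fun p : ℝ × ℝ => w p.1 p.2) (II ×ˢ Ioi 0)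
  cont : ContinuousOn (fun p : ℝ × ℝ => w p.1 p.2) (II ×ˢ Ici 0)
  eqn : ∀ x ∈ II, ∀ t : ℝ, 0 < t → deriv (fun s => w x s) t =
    Real.sqrt (1 + (deriv (fun z => w z t) x) ^ 2) *
      deriv (fun y => deriv (fun z => w z t) y / Real.sqrt (1 + (deriv (fun z => w z t) y) ^ 2)) x

theorem isOpen_dom : IsOpen (II ×ˢ Ioi (0 : ℝ)) := isOpen_II.prod isOpen_Ioi

variable {w : ℝ → ℝ → ℝ}

theorem Sol.contDiffAt (h : Sol w) {x t : ℝ} (hx : x ∈ II) (ht : 0 < t) :
    ContDiffAt ℝ ∞ (fun p : ℝ × ℝ => w p.1 p.2) (x, t) :=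
  h.smooth.contDiffAt (isOpen_dom.mem_nhds ⟨hx, ht⟩)

/-- spatial slice is smooth -/
theorem Sol.slice (h : Sol w) {t : ℝ} (ht : 0 < t) :
    ContDiffOn ℝ ∞ (fun z : ℝ => w z t) II := by
  have h2 : ContDiffOn ℝ ∞ (fun z : ℝ => (z, t)) II := by fun_prop
  exact ContDiffOn.comp (g := fun p : ℝ × ℝ => w p.1 p.2) (f := fun z : ℝ => (z, t)) h.smooth h2
    (fun z hz => ⟨hz, ht⟩)

theorem Sol.hasDerivAt_t (h : Sol w) {x t : ℝ} (hx : x ∈ II) (ht : 0 < t) :
    HasDerivAt (fun s => w x s) (fderiv ℝ (fun p : ℝ × ℝ => w p.1 p.2) (x, t) (0, 1)) t := by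
  have h1 := (h.contDiffAt hx ht).differentiableAt (by simp)
  have h2 : HasDerivAt (fun s : ℝ => (x, s)) ((0 : ℝ), (1 : ℝ)) t :=
    (hasDerivAt_const t x).prodMk (hasDerivAt_id t)
  exact h1.hasFDerivAt.comp_hasDerivAt t h2

theorem Sol.contDeriv (h : Sol w) :
    ContinuousOn (fun p : ℝ × ℝ => fderiv ℝ (fun p : ℝ × ℝ => w p.1 p.2) p (0, 1))
      (II ×ˢ Ioi 0) := by
  have h1 : ContinuousOn (fderiv ℝ (fun p : ℝ × ℝ => w p.1 p.2)) (II ×ˢ Ioi 0) :=
    h.smooth.continuousOn_fderiv_of_isOpen isOpen_dom (by simp)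
  exact h1.clm_apply continuousOn_const

/-- the equation in divergence form -/
theorem Sol.arctan_form (h : Sol w) {x t : ℝ} (hx : x ∈ II) (ht : 0 < t) :
    HasDerivAt (fun y => Real.arctan (deriv (fun z => w z t) y))
      (fderiv ℝ (fun p : ℝ × ℝ => w p.1 p.2) (x, t) (0, 1)) x := by
  have hs := h.slice ht
  -- the derivative is differentiable
  have hd : DifferentiableAt ℝ (deriv (fun z => w z t)) x := by
    have h2 := ((contDiffOn_infty_iff_deriv_of_isOpen isOpen_II).mp hs).2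
    exact (h2.contDiffAt (isOpen_II.mem_nhds hx)).differentiableAt (by simp)
  set g : ℝ → ℝ := deriv (fun z => w z t) with hg
  have hg' : HasDerivAt g (deriv g x) x := hd.hasDerivAt
  have hpos : 0 < 1 + g x ^ 2 := by positivity
  have h3 : HasDerivAt (fun y => Real.arctan (g y)) (1 / (1 + g x ^ 2) * deriv g x) x :=
    (Real.hasDerivAt_arctan (g x)).comp x hg'
  have h4 : HasDerivAt (fun y => g y / Real.sqrt (1 + g y ^ 2))
      ((deriv g x * Real.sqrt (1 + g x ^ 2) - g x * ((2 * g x * deriv g x) /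
        (2 * Real.sqrt (1 + g x ^ 2)))) / (Real.sqrt (1 + g x ^ 2)) ^ 2) x := by
    have h5 : HasDerivAt (fun y => 1 + g y ^ 2) (2 * g x * deriv g x) x := by
      have := (hg'.pow 2).const_add 1
      simpa using this
    have h6 := h5.sqrt hpos.ne'
    exact hg'.div h6 (Real.sqrt_ne_zero'.mpr hpos)
  have h7 := (h.hasDerivAt_t hx ht).deriv
  have h8 := h.eqn x hx t ht
  rw [h7] at h8
  have h9 : deriv (fun y => deriv (fun z => w z t) y /
      Real.sqrt (1 + (deriv (fun z => w z t) y) ^ 2)) x = _ := h4.deriv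
  rw [h9] at h8
  rw [h8]
  convert h3 using 1
  have hsq : Real.sqrt (1 + g x ^ 2) ^ 2 = 1 + g x ^ 2 := Real.sq_sqrt hpos.le
  have hne : Real.sqrt (1 + g x ^ 2) ≠ 0 := Real.sqrt_ne_zero'.mpr hpos
  have hgx : deriv (fun z => w z t) x = g x := rfl
  rw [hgx]
  set S := Real.sqrt (1 + g x ^ 2) with hS
  rw [← hsq]
  field_simp
  rw [hsq]
  ring

theorem Icc_sub {a b : ℝ} (ha : a ∈ II) (hb : b ∈ II) : Icc a b ⊆ II :=
  fun _ hx => ⟨lt_of_lt_of_le ha.1 hx.1, lt_of_le_of_lt hx.2 hb.2⟩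

/-- derivative of the integral -/
theorem Sol.hasDerivAt_int (h : Sol w) {a b t : ℝ} (ha : a ∈ II) (hb : b ∈ II) (hab : a ≤ b)
    (ht : 0 < t) :
    HasDerivAt (fun s => ∫ x in a..b, w x s)
      (Real.arctan (deriv (fun z => w z t) b) - Real.arctan (deriv (fun z => w z t) a)) t := by
  have hsub : Icc a b ⊆ II := Icc_sub ha hb
  set F' : ℝ → ℝ → ℝ := fun s x => fderiv ℝ (fun p : ℝ × ℝ => w p.1 p.2) (x, s) (0, 1) with hF'
  have hcont : ∀ s : ℝ, 0 < s → ContinuousOn (F' s) (Icc a b) := by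
    intro s hs
    have : ContinuousOn (fun x : ℝ => (x, s)) (Icc a b) := by fun_prop
    exact h.contDeriv.comp this (fun x hx => ⟨hsub hx, hs⟩)
  -- bound on a compact set
  obtain ⟨C, hC⟩ : ∃ C, ∀ p ∈ Icc a b ×ˢ Icc (t / 2) (2 * t),
      ‖fderiv ℝ (fun p : ℝ × ℝ => w p.1 p.2) p (0, 1)‖ ≤ C := by
    apply (isCompact_Icc.prod isCompact_Icc).exists_bound_of_continuousOn
    exact h.contDeriv.mono (fun p hp => ⟨hsub hp.1, lt_of_lt_of_le (by linarith) hp.2.1⟩)
  have key := intervalIntegral.hasDerivAt_integral_of_dominated_loc_of_deriv_le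
    (μ := volume) (a := a) (b := b) (bound := fun _ => C) (F := fun s x => w x s) (F' := F')
    (x₀ := t) (s := Ioo (t / 2) (2 * t)) (Ioo_mem_nhds (by linarith) (by linarith))
    (by
      filter_upwards [Ioo_mem_nhds (show t / 2 < t by linarith) (show t < 2 * t by linarith)]
        with s hs
      have hs0 : 0 < s := lt_trans (by linarith) hs.1
      have : ContinuousOn (fun x => w x s) (uIcc a b) := by
        rw [uIcc_of_le hab]
        exact (h.slice hs0).continuousOn.mono hsub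
      exact this.intervalIntegrable.aestronglyMeasurable_restrict_uIoc)
    (by
      apply ContinuousOn.intervalIntegrable
      rw [uIcc_of_le hab]
      exact (h.slice ht).continuousOn.mono hsub)
    (by
      have : ContinuousOn (F' t) (uIcc a b) := by
        rw [uIcc_of_le hab]; exact hcont t ht
      exact this.intervalIntegrable.aestronglyMeasurable_restrict_uIoc)
    (by
      refine ae_of_all _ (fun x hx s hs => ?_)
      rw [uIoc_of_le hab] at hx
      exact hC (x, s) ⟨⟨hx.1.le, hx.2⟩, ⟨hs.1.le, hs.2.le⟩⟩)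
    (by simp)
    (by
      refine ae_of_all _ (fun x hx s hs => ?_)
      rw [uIoc_of_le hab] at hx
      exact h.hasDerivAt_t (hsub ⟨hx.1.le, hx.2⟩) (lt_trans (by linarith) hs.1))
  have h2 : ∫ x in a..b, F' t x =
      Real.arctan (deriv (fun z => w z t) b) - Real.arctan (deriv (fun z => w z t) a) := by
    apply intervalIntegral.integral_eq_sub_of_hasDerivAt
    · intro x hx
      rw [uIcc_of_le hab] at hx
      exact h.arctan_form (hsub hx) ht
    · apply ContinuousOn.intervalIntegrable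
      rw [uIcc_of_le hab]; exact hcont t ht
  rw [← h2]
  exact key.2

theorem Sol.continuousOn_int (h : Sol w) {a b t : ℝ} (ha : a ∈ II) (hb : b ∈ II) (hab : a ≤ b) :
    ContinuousOn (fun s => ∫ x in a..b, w x s) (Icc 0 t) := by
  have hsub : Icc a b ⊆ II := Icc_sub ha hb
  obtain ⟨C, hC⟩ : ∃ C, ∀ p ∈ Icc a b ×ˢ Icc 0 t, ‖(fun p : ℝ × ℝ => w p.1 p.2) p‖ ≤ C := by
    apply (isCompact_Icc.prod isCompact_Icc).exists_bound_of_continuousOn
    exact h.cont.mono (fun p hp => ⟨hsub hp.1, hp.2.1⟩)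
  intro s hs
  apply intervalIntegral.continuousWithinAt_of_dominated_interval (bound := fun _ => C)
  · filter_upwards [self_mem_nhdsWithin] with s hs
    have : ContinuousOn (fun x => w x s) (uIcc a b) := by
      rw [uIcc_of_le hab]
      have h3 : ContinuousOn (fun x : ℝ => (x, s)) (Icc a b) := by fun_prop
      exact h.cont.comp h3 (fun x hx => ⟨hsub hx, hs.1⟩)
    exact this.intervalIntegrable.aestronglyMeasurable_restrict_uIoc
  · filter_upwards [self_mem_nhdsWithin] with s hs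
    refine ae_of_all _ (fun x hx => ?_)
    rw [uIoc_of_le hab] at hx
    exact hC (x, s) ⟨⟨hx.1.le, hx.2⟩, hs⟩
  · simp
  · refine ae_of_all _ (fun x hx => ?_)
    rw [uIoc_of_le hab] at hx
    have h3 : ContinuousOn (fun s : ℝ => (x, s)) (Icc 0 t) := by fun_prop
    exact (h.cont.comp h3 (fun s hs => ⟨hsub ⟨hx.1.le, hx.2⟩, hs.1⟩)) s hs

/-- **Key estimate.** -/
theorem Sol.int_le (h : Sol w) {a b t : ℝ} (ha : a ∈ II) (hb : b ∈ II) (hab : a ≤ b)
    (ht : 0 ≤ t) :
    (∫ x in a..b, w x t) - (∫ x in a..b, w x 0) ≤ Real.pi * t := by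
  rcases ht.eq_or_lt with rfl | ht
  · simp
  obtain ⟨c, hc, hc'⟩ := exists_deriv_eq_slope (fun s => ∫ x in a..b, w x s) ht
    (h.continuousOn_int ha hb hab)
    (fun s hs => (h.hasDerivAt_int ha hb hab hs.1).differentiableAt.differentiableWithinAt)
  rw [(h.hasDerivAt_int ha hb hab hc.1).deriv] at hc'
  have h1 := Real.arctan_lt_pi_div_two (deriv (fun z => w z c) b)
  have h2 := Real.neg_pi_div_two_lt_arctan (deriv (fun z => w z c) a)
  have h3 : ((∫ x in a..b, w x t) - (∫ x in a..b, w x 0)) / (t - 0) < Real.pi := by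
    rw [← hc']; linarith
  rw [sub_zero, div_lt_iff₀ ht] at h3
  exact h3.le

end Pool.Agent.W551.Grim
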