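import Pool.Agent.W217.BE.Stm

/-!
Project BE: the rank of a finite projective module over a connected spectrum is constant.
-/

set_option autoImplicit false

namespace Pool.Agent.W551.BECONST

open Pool.Agent.W217.BE

theorem main : CONST := by
  intro S _ _ P _ _ _ _ p q
  have : Module.FinitePresentation S P := Module.finitePresentation_of_projective S P
  have h : IsLocallyConstant (Module.rankAtStalk (R := S) P) := Module.isLocallyConstant_rankAtStalk
  exact h.apply_eq_of_preconnectedSpace p q

end Pool.Agent.W551.BECONST
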